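import Mathlib

/-! Units which are integral over a polynomial ring and fixed by the Galois group are constants. -/

namespace Pool.Agent.Y317.AW

open scoped IntermediateField.algebraAdjoinAdjoin

theorem uni_core (p : ℕ) [Fact p.Prime] (K N ι : Type) [Field K] [CharP K p] [Field N]
    [IsAlgClosed N] [Algebra K N] (η : ι → N) (hη : IsTranscendenceBasis K η) (c : N)
    (hc0 : c ≠ 0) (hc : IsIntegral (Algebra.adjoin K (Set.range η)) c)
    (hci : IsIntegral (Algebra.adjoin K (Set.range η)) c⁻¹)
    (hfix : ∀ σ : N ≃ₐ[K] N, (∀ i, σ (η i) = η i) → σ c = c) : IsAlgebraic K c := by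
  classical
  have halg : Algebra.IsAlgebraic (IntermediateField.adjoin K (Set.range η)) N :=
    hη.isAlgebraic_field
  have hcl : IsAlgClosure (IntermediateField.adjoin K (Set.range η)) N := ⟨inferInstance, halg⟩
  have hnorm : Normal (IntermediateField.adjoin K (Set.range η)) N :=
    IsAlgClosure.normal (IntermediateField.adjoin K (Set.range η)) N
  have hF0 : CharP (IntermediateField.adjoin K (Set.range η)) p :=
    charP_of_injective_algebraMap
      (algebraMap K (IntermediateField.adjoin K (Set.range η))).injective p
  have hp : p.Prime := Fact.out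
  have hE0 : ExpChar (IntermediateField.adjoin K (Set.range η)) p := ExpChar.prime hp
  -- the element `c` is fixed by the automorphisms over the rational function field
  have hfix2 : ∀ γ : N ≃ₐ[IntermediateField.adjoin K (Set.range η)] N, γ c = c := by
    intro γ
    refine hfix (γ.restrictScalars K) fun i => ?_
    exact γ.commutes ⟨η i, IntermediateField.subset_adjoin K _ ⟨i, rfl⟩⟩
  have hint : IsIntegral (IntermediateField.adjoin K (Set.range η)) c :=
    (halg.isAlgebraic c).isIntegral
  -- so it is purely inseparable
  have hsep : (minpoly (IntermediateField.adjoin K (Set.range η)) c).natSepDegree = 1 := by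
    rw [Polynomial.natSepDegree_eq_of_isAlgClosed N, Finset.card_eq_one]
    refine ⟨c, ?_⟩
    ext y
    rw [Multiset.mem_toFinset, Finset.mem_singleton,
      Polynomial.mem_aroots]
    constructor
    · rintro ⟨-, hy⟩
      have hmy : minpoly (IntermediateField.adjoin K (Set.range η)) y =
          minpoly (IntermediateField.adjoin K (Set.range η)) c :=
        (minpoly.eq_of_irreducible_of_monic (minpoly.irreducible hint) hy
          (minpoly.monic hint)).symm
      obtain ⟨γ, hγ⟩ := Normal.minpoly_eq_iff_mem_orbit (E := N) |>.1 hmy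
      rw [← hγ]
      exact hfix2 γ
    · rintro rfl
      exact ⟨minpoly.ne_zero hint, minpoly.aeval _ _⟩
  obtain ⟨n, f, hf⟩ := (minpoly.natSepDegree_eq_one_iff_pow_mem p).1 hsep
  -- the polynomial ring is integrally closed
  have hic : IsIntegrallyClosed (Algebra.adjoin K (Set.range η)) :=
    IsIntegrallyClosed.of_equiv hη.1.aevalEquiv.toRingEquiv
  have hinjF : Function.Injective (algebraMap (IntermediateField.adjoin K (Set.range η)) N) :=
    (algebraMap (IntermediateField.adjoin K (Set.range η)) N).injective
  have hcn : c ^ p ^ n ≠ 0 := pow_ne_zero _ hc0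
  have hf0 : f ≠ 0 := by
    rintro rfl
    rw [map_zero] at hf
    exact hcn hf.symm
  have h1 : IsIntegral (Algebra.adjoin K (Set.range η)) f := by
    refine (isIntegral_algebraMap_iff hinjF).1 ?_
    rw [hf]
    exact hc.pow _
  have h2 : IsIntegral (Algebra.adjoin K (Set.range η)) f⁻¹ := by
    refine (isIntegral_algebraMap_iff hinjF).1 ?_
    rw [map_inv₀, hf, ← inv_pow]
    exact hci.pow _
  obtain ⟨r, hr⟩ := IsIntegrallyClosed.isIntegral_iff.1 h1
  obtain ⟨s, hs⟩ := IsIntegrallyClosed.isIntegral_iff.1 h2
  have hrs : r * s = 1 := by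
    apply IsFractionRing.injective (Algebra.adjoin K (Set.range η))
      (IntermediateField.adjoin K (Set.range η))
    rw [map_mul, map_one, hr, hs, mul_inv_cancel₀ hf0]
  have hu : IsUnit (hη.1.aevalEquiv.symm r) := (IsUnit.of_mul_eq_one s hrs).map _
  obtain ⟨a, -, ha⟩ := MvPolynomial.isUnit_iff_eq_C_of_isReduced.1 hu
  have hra : r = algebraMap K _ a := by
    have h3 := congrArg hη.1.aevalEquiv ha
    rw [AlgEquiv.apply_symm_apply, ← MvPolynomial.algebraMap_eq, AlgEquiv.commutes] at h3
    exact h3
  refine IsAlgebraic.of_pow (n := p ^ n) (pow_pos hp.pos n) ?_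
  have h4 : c ^ p ^ n = algebraMap K N a := by
    rw [← hf, ← hr, hra]
    rfl
  rw [h4]
  exact isAlgebraic_algebraMap a

end Pool.Agent.Y317.AW
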