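import Pool.Agent.Y140.AW.Stm
import Pool.Agent.Y317.AW.UniCore

/-! UNI: invariant units are algebraic over the base field. -/

namespace Pool.Agent.Y317.AW

open Pool.Agent.Y140.AW

theorem t_uni : St_uni :=
  fun p _ K N ι _ _ _ _ _ _ η hη c hc0 hc hci hfix =>
    uni_core p K N ι η hη c hc0 hc hci hfix

end Pool.Agent.Y317.AW
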